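import Mathlib

/-!
# Every `S₁(Γ₁, Γ)`-space of reals is perfectly meager
-/

namespace Pool.Agent.Results.MP_9df12e_lc.PerfectlyMeager

open Set Filter Topology

/-- `V` is a `Γ₁`-sequence for `X`: all `V n m` are open subsets of `X` and, in each row `n`,
every point of `X` is missing from at most one of the sets `V n m`. -/
def IsGammaOne (X : Set ℝ) (V : ℕ → ℕ → Set X) : Prop :=
  (∀ n m, IsOpen (V n m)) ∧ ∀ x : X, ∀ n, {m | x ∉ V n m}.encard ≤ 1

/-- `U` is a `γ`-sequence of open subsets of `X`: every point of `X` lies in all but finitely many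
of the sets `U n`. -/
def IsGammaSeq (X : Set ℝ) (U : ℕ → Set X) : Prop :=
  (∀ n, IsOpen (U n)) ∧ ∀ x : X, {n | x ∉ U n}.Finite

/-- `X` is an `S₁(Γ₁, Γ)`-space. -/
def IsSOneGammaOneGamma (X : Set ℝ) : Prop :=
  ∀ V : ℕ → ℕ → Set X, IsGammaOne X V → ∃ d : ℕ → ℕ, IsGammaSeq X fun n => V n (d n)

/-- `X` is perfectly meager: for every nonempty perfect set `P` of reals (closed, without isolated
points), `X ∩ P` is meager in the subspace `P`. -/
def IsPerfectlyMeager (X : Set ℝ) : Prop :=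
  ∀ P : Set ℝ, P.Nonempty → Perfect P → IsMeagre {p : P | (p : ℝ) ∈ X}

section Topological

variable {P : Type*} [TopologicalSpace P] [T3Space P] [PerfectSpace P]

theorem step {n : ℕ} (U : Fin n → Set P) (hU : ∀ i, IsOpen (U i)) (K : Set P) (hK : IsClosed K)
    (h : ∀ i, (U i \ K).Nonempty) : ∃ C : Set P, IsClosed C ∧ Disjoint K C ∧
      (∀ i, (interior C ∩ U i).Nonempty) ∧ ∀ i, (U i \ (K ∪ C)).Nonempty := by
  choose q hq using h
  have hQ : IsClosed (range q) := (finite_range q).isClosed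
  have hp : ∀ i, ∃ p, p ∈ (U i \ K) \ range q := by
    intro i
    have hinf : (U i \ K).Infinite :=
      infinite_of_mem_nhds (q i) (((hU i).sdiff hK).mem_nhds (hq i))
    obtain ⟨p, hp⟩ := (hinf.sdiff (finite_range q)).nonempty
    exact ⟨p, hp⟩
  choose p hp using hp
  have hW : IsOpen (K ∪ range q)ᶜ := (hK.union hQ).isOpen_compl
  have hN : ∀ i, ∃ N ∈ 𝓝 (p i), IsClosed N ∧ N ⊆ (K ∪ range q)ᶜ := by
    intro i
    refine exists_mem_nhds_isClosed_subset (hW.mem_nhds ?_)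
    intro hh
    rcases hh with hh | hh
    · exact (hp i).1.2 hh
    · exact (hp i).2 hh
  choose N hN1 hN2 hN3 using hN
  refine ⟨⋃ i, N i, isClosed_iUnion_of_finite hN2, ?_, ?_, ?_⟩
  · rw [Set.disjoint_left]
    intro x hx hx'
    obtain ⟨i, hi⟩ := mem_iUnion.1 hx'
    exact hN3 i hi (Or.inl hx)
  · intro i
    refine ⟨p i, ?_, (hp i).1.1⟩
    exact interior_mono (subset_iUnion N i) (mem_interior_iff_mem_nhds.2 (hN1 i))
  · intro i
    refine ⟨q i, (hq i).1, ?_⟩
    rintro (hh | hh)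
    · exact (hq i).2 hh
    · obtain ⟨j, hj⟩ := mem_iUnion.1 hh
      exact hN3 j hj (Or.inr ⟨i, rfl⟩)

theorem exists_row {n : ℕ} (U : Fin n → Set P) (hU : ∀ i, IsOpen (U i))
    (hne : ∀ i, (U i).Nonempty) : ∃ C : ℕ → Set P, (∀ j, IsClosed (C j)) ∧
      (∀ j j', j ≠ j' → Disjoint (C j) (C j')) ∧ ∀ j i, (interior (C j) ∩ U i).Nonempty := by
  have key : ∀ s : {K : Set P // IsClosed K ∧ ∀ i, (U i \ K).Nonempty}, ∃ C : Set P,
      IsClosed C ∧ Disjoint (s : Set P) C ∧ (∀ i, (interior C ∩ U i).Nonempty) ∧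
        ∀ i, (U i \ ((s : Set P) ∪ C)).Nonempty := fun s => step U hU s.1 s.2.1 s.2.2
  choose f hf1 hf2 hf3 hf4 using key
  let K : ℕ → {K : Set P // IsClosed K ∧ ∀ i, (U i \ K).Nonempty} := fun m =>
    Nat.rec ⟨∅, isClosed_empty, by simpa using hne⟩
      (fun _ s => ⟨(s : Set P) ∪ f s, s.2.1.union (hf1 s), hf4 s⟩) m
  have hKs : ∀ m, (K (m + 1)).1 = (K m).1 ∪ f (K m) := fun m => rfl
  have hmono : Monotone fun m => (K m).1 :=
    monotone_nat_of_le_succ fun m => by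
      rw [hKs]
      exact subset_union_left
  have hdis : ∀ j j', j < j' → Disjoint (f (K j)) (f (K j')) := by
    intro j j' hjj
    have h1 : f (K j) ⊆ (K j').1 := by
      have h2 : (K (j + 1)).1 ⊆ (K j').1 := hmono hjj
      rw [hKs] at h2
      exact subset_union_right.trans h2
    exact (hf2 (K j')).mono_left h1
  refine ⟨fun j => f (K j), fun j => hf1 _, ?_, fun j => hf3 _⟩
  intro j j' hjj
  rcases lt_or_gt_of_ne hjj with h | h
  · exact hdis j j' h
  · exact (hdis j' j h).symm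

theorem exists_matrix [SecondCountableTopology P] : ∃ C : ℕ → ℕ → Set P,
    (∀ n j, IsClosed (C n j)) ∧ (∀ n j j', j ≠ j' → Disjoint (C n j) (C n j')) ∧
      ∀ U : Set P, IsOpen U → U.Nonempty → ∃ k, ∀ n, k ≤ n → ∀ j,
        (interior (C n j) ∩ U).Nonempty := by
  classical
  rcases isEmpty_or_nonempty P with hP | hP
  · exact ⟨fun _ _ => ∅, fun _ _ => isClosed_empty, fun _ _ _ _ => disjoint_bot_left,
      fun U _ hU => (hP.false hU.some).elim⟩
  obtain ⟨B, hBc, hBne, hBb⟩ := TopologicalSpace.exists_countable_basis P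
  have hBn : B.Nonempty := by
    obtain ⟨x⟩ := hP
    obtain ⟨b, hb, -⟩ := hBb.exists_subset_of_mem_open (mem_univ x) isOpen_univ
    exact ⟨b, hb⟩
  obtain ⟨e, he⟩ := hBc.exists_eq_range hBn
  have heB : ∀ i, e i ∈ B := fun i => he ▸ mem_range_self i
  have hrow : ∀ n : ℕ, ∃ C : ℕ → Set P, (∀ j, IsClosed (C j)) ∧
      (∀ j j', j ≠ j' → Disjoint (C j) (C j')) ∧
        ∀ j (i : Fin n), (interior (C j) ∩ e i).Nonempty := fun n =>
    exists_row (fun i : Fin n => e i) (fun i => hBb.isOpen (heB i))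
      (fun i => nonempty_iff_ne_empty.2 fun h => hBne (h ▸ heB i))
  choose C hC1 hC2 hC3 using hrow
  refine ⟨C, hC1, hC2, ?_⟩
  intro U hU hUne
  obtain ⟨x, hx⟩ := hUne
  obtain ⟨b, hb, hxb, hbU⟩ := hBb.exists_subset_of_mem_open hx hU
  rw [he] at hb
  obtain ⟨i, rfl⟩ := hb
  refine ⟨i + 1, fun n hn j => ?_⟩
  obtain ⟨y, hy1, hy2⟩ := hC3 n j ⟨i, hn⟩
  exact ⟨y, hy1, hbU hy2⟩

end Topological

/-- Every `S₁(Γ₁, Γ)`-space of reals is perfectly meager. -/
theorem result : ∀ X : Set ℝ, IsSOneGammaOneGamma X → IsPerfectlyMeager X := by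
  intro X hX P _ hP
  have : PerfectSpace P := by
    rw [perfectSpace_iff_forall_not_isolated]
    intro x
    have h1 : AccPt (x : ℝ) (𝓟 P) := hP.acc x x.2
    rw [accPt_iff_nhds] at h1
    rw [← mem_closure_iff_nhdsWithin_neBot, mem_closure_iff_nhds]
    intro t ht
    obtain ⟨u, hu, hut⟩ := (mem_nhds_subtype P x t).1 ht
    obtain ⟨y, ⟨hyu, hyP⟩, hyx⟩ := h1 u hu
    refine ⟨⟨y, hyP⟩, hut hyu, ?_⟩
    intro hh
    exact hyx (congrArg Subtype.val hh)
  obtain ⟨C, hC1, hC2, hC3⟩ := exists_matrix (P := P)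
  have hcl : ∀ n j, IsClosed ((Subtype.val : P → ℝ) '' C n j) := fun n j =>
    hP.closed.isClosedEmbedding_subtypeVal.isClosedMap _ (hC1 n j)
  obtain ⟨d, -, hd⟩ := hX (fun n j => {x : X | (x : ℝ) ∉ (Subtype.val : P → ℝ) '' C n j}) (by
    refine ⟨fun n m => ?_, fun x n => ?_⟩
    · exact (hcl n m).isOpen_compl.preimage continuous_subtype_val
    · rw [encard_le_one_iff]
      intro a b ha hb
      simp only [mem_ofPred_eq, not_not] at ha hb
      obtain ⟨y, hy, hyx⟩ := ha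
      obtain ⟨z, hz, hzx⟩ := hb
      have hyz : y = z := Subtype.ext (hyx.trans hzx.symm)
      by_contra hab
      exact (Set.disjoint_left.1 (hC2 n a b hab)) hy (hyz ▸ hz))
  have hres : (⋂ k : ℕ, ⋃ n : ℕ, ⋃ (_ : k ≤ n), interior (C n (d n))) ∈ residual P := by
    rw [countable_iInter_mem]
    intro k
    apply residual_of_dense_open
    · exact isOpen_iUnion fun n => isOpen_iUnion fun _ => isOpen_interior
    · rw [dense_iff_inter_open]
      intro U hU hUne
      obtain ⟨k', hk'⟩ := hC3 U hU hUne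
      obtain ⟨y, hy1, hy2⟩ := hk' (max k k') (le_max_right _ _) (d (max k k'))
      exact ⟨y, hy2, mem_iUnion₂.2 ⟨max k k', le_max_left _ _, hy1⟩⟩
  rw [IsMeagre]
  refine mem_of_superset hres ?_
  intro p hp hpX
  have hfin := hd ⟨p, hpX⟩
  obtain ⟨k, hk⟩ := hfin.bddAbove
  obtain ⟨n, hn, hpn⟩ := mem_iUnion₂.1 (mem_iInter.1 hp (k + 1))
  have h1 : n ∈ {n | (⟨p, hpX⟩ : X) ∉ {x : X | (x : ℝ) ∉ (Subtype.val : P → ℝ) '' C n (d n)}} := by
    simp only [mem_ofPred_eq, not_not]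
    exact ⟨p, interior_subset hpn, rfl⟩
  have := hk h1
  omega

end Pool.Agent.Results.MP_9df12e_lc.PerfectlyMeager
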